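import Pool.Agent.H87.LdC7

namespace Pool.Agent.Results.MP_f896b9_an.Values

open Ordinal H87.LdC

/-- The exact values of the distortion constants of the three classes into `C([0, ω^α])`. -/
theorem result (α : Ordinal.{0}) (h1 : 1 ≤ α) (h2 : α < ω_ 1) :
    cCl (BoundedContinuousFunction (Set.Iic (ω ^ α)) ℝ) TYP = 2 ∧
    cCl (BoundedContinuousFunction (Set.Iic (ω ^ α)) ℝ) COT = 2 ∧
    cCl (BoundedContinuousFunction (Set.Iic (ω ^ α)) ℝ) SR = if α < ω then 2 else 1 := by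
  have h3 : ∀ P, cCl (BoundedContinuousFunction (Set.Iic (ω ^ α)) ℝ) P ≤ 2 := fun P => by
    simp only [cCl, iSup_le_iff]
    exact fun M _ _ _ _ _ => c_two M (left_le_opow _ (zero_lt_one.trans_le h1))
  have h4 : ∀ P (M : Type) [NormedAddCommGroup M] [NormedSpace ℝ M] [CompleteSpace M]
      [TopologicalSpace.SeparableSpace M], P M → cSp (BoundedContinuousFunction (Set.Iic (ω ^ α)) ℝ) M ≤
        cCl (BoundedContinuousFunction (Set.Iic (ω ^ α)) ℝ) P := fun P M _ _ _ _ h =>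
    le_iSup₂_of_le M _ (le_iSup₂_of_le _ ‹_› (le_iSup₂_of_le ‹_› h le_rfl))
  have h5 : ∀ k : ℕ, ∃ (Z : Type) (_ : NormedAddCommGroup Z) (_ : NormedSpace ℝ Z)
      (_ : CompleteSpace Z) (_ : TopologicalSpace.SeparableSpace Z), SR Z ∧ Low Z (ω ^ (k : Ordinal)) :=
    fun k => by
      obtain ⟨Z, _, _, _, _, H, _, _, _, ⟨e⟩, h⟩ := lowSR k
      exact ⟨Z, _, _, ‹_›, ‹_›, ⟨H, _, _, inferInstance, ⟨(e.symm.arrowCongr (.refl ℝ ℝ)).trans
        (InnerProductSpace.toDual ℝ H).symm.toContinuousLinearEquiv⟩⟩, h⟩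
  refine ⟨(h3 _).antisymm ?_, (h3 _).antisymm ?_, ?_⟩
  · obtain ⟨Z, _, _, _, _, C, a1, a2⟩ := lowTYP
    exact (a2 α h2).two.trans (h4 _ Z ⟨16 / 15, C, by norm_num, by norm_num, a1⟩)
  · obtain ⟨Z, _, _, _, _, a1, a2⟩ := lowCOT
    exact (a2 α h2).two.trans (h4 _ Z ⟨2, 84, le_rfl, fun n x => by
      simp only [← Real.sqrt_eq_rpow, Real.rpow_two]; exact a1 n x⟩)
  split_ifs with h
  · obtain ⟨k, rfl⟩ := lt_omega0.1 h
    obtain ⟨Z, _, _, _, _, a1, a2⟩ := h5 k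
    exact (h3 _).antisymm (a2.two.trans (h4 _ Z a1))
  · obtain ⟨Z, _, _, _, _, a1, a2⟩ := h5 0
    have := a2.nt
    refine le_antisymm ?_ (one_le_c.trans (h4 _ Z a1))
    simp only [cCl, iSup_le_iff]
    rintro M _ _ _ _ ⟨Y, _, _, _, ⟨T⟩⟩
    exact c_one M T (opow_le_opow_right omega0_pos (not_lt.1 h))

end Pool.Agent.Results.MP_f896b9_an.Values
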